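import Pool.Agent.helper55.RI.SpecV

/-!
# Project rg (MP_2bd605_lc): row V1
-/

set_option autoImplicit false
set_option linter.unusedVariables false

namespace Pool.Agent.RI

open Pool.Agent.helper62 Prog Function Pool.Agent.helper81.PL

theorem V1_pow (d : ℕ) : PT (fun w : W => (w.length + 2) ^ d) := by
  induction d with
  | zero => simp only [pow_zero]; fun_prop
  | succ d ih =>
    simp only [pow_succ]
    fun_prop

theorem V1_bound (D d n : ℕ) : D * (2 ^ ((n + 2) ^ d) + n + 1) ^ D ≤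
    2 ^ ((Polynomial.C D + Polynomial.C D * ((Polynomial.X + 2) ^ d + Polynomial.X + 1) :
      Polynomial ℕ).eval n) := by
  have h1 : (Polynomial.C D + Polynomial.C D * ((Polynomial.X + 2) ^ d + Polynomial.X + 1) :
      Polynomial ℕ).eval n = D + D * ((n + 2) ^ d + n + 1) := by
    simp
  rw [h1, pow_add, mul_comm D ((n + 2) ^ d + n + 1), pow_mul]
  apply Nat.mul_le_mul
  · exact Nat.lt_two_pow_self.le
  · apply Nat.pow_le_pow_left
    set k := (n + 2) ^ d with hk
    have h2 : n + 1 ≤ 2 ^ (n + 1) - 1 + 1 - 0 := by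
      have := (Nat.lt_two_pow_self (n := n + 1)).le
      omega
    have h3 : 1 ≤ 2 ^ k := Nat.one_le_two_pow
    have h4 : n + 1 < 2 ^ (n + 1) := Nat.lt_two_pow_self
    have h5 : 2 ^ (k + n + 1) = 2 ^ k * 2 ^ (n + 1) := by
      rw [← pow_add, add_assoc]
    rw [h5]
    nlinarith

theorem V1 : V1_stmt := by
  intro A hA
  obtain ⟨r, d, hr, hrA⟩ := hA
  have hk : PT (fun w : W => (w.length + 2) ^ d) := V1_pow d
  have hf : PT (fun p : ℕ × List Bool => (fun (N : ℕ) (w : List Bool) => r (w, N)) p.1 p.2) := by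
    show PT (fun p : ℕ × List Bool => r (p.2, p.1))
    fun_prop
  obtain ⟨D, hD⟩ := PAD 2 (fun w : W => (w.length + 2) ^ d) (fun N w => r (w, N)) hk hf
  obtain ⟨M, hM⟩ := hD W id
  refine ⟨fun w => r (w, ck d w), Polynomial.C D + Polynomial.C D *
    ((Polynomial.X + 2) ^ d + Polynomial.X + 1), ⟨M, fun a => ?_⟩, hrA⟩
  obtain ⟨h⟩ := hM a
  exact ⟨⟨h.toEvalsTo, h.steps_le_m.trans (V1_bound D d _)⟩⟩

end Pool.Agent.RI
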